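import Pool.Agent.X177.GR.Y4a
import Pool.Agent.X287.BP.AbsLe

/-!
# The bordered growth bound (part Y4)
-/

namespace Pool.Agent.X177.GR

open Finset PowerSeries Pool.Agent.X294.GR

/-- the tridiagonal array -/
noncomputable def tau (κ : ℝ) (k l : ℕ) : ℝ :=
  if l = k + 1 then κ * 2 ^ k else if k = l + 1 then -(κ * 2 ^ l) else 0

/-- the congruence matrix -/
def BB (M : ℕ) (w : ℕ → ℕ → ℝ) : Matrix (Fin (2 * (M + 1))) (Fin (2 * (M + 1))) ℝ :=
  Matrix.of fun i k => if (i : ℕ) < 2 * M + 1 then (if (k : ℕ) < 2 * M + 1 then w i k else 0)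
    else (if (k : ℕ) < 2 * M + 1 then 0 else 1)

/-- entries of `BB` -/
def bn (M : ℕ) (w : ℕ → ℕ → ℝ) (i k : ℕ) : ℝ :=
  if i < 2 * M + 1 then (if k < 2 * M + 1 then w i k else 0)
    else (if k < 2 * M + 1 then 0 else 1)

/-- entries of `bd` -/
def dn (M : ℕ) (a : ℕ → ℕ → ℝ) (c : ℕ → ℝ) (i j : ℕ) : ℝ :=
  if i < 2 * M + 1 then (if j < 2 * M + 1 then a i j else c i)
    else (if j < 2 * M + 1 then - c j else 0)

theorem bn1 {M : ℕ} (w : ℕ → ℕ → ℝ) {i k : ℕ} (hi : i < 2 * M + 1) (hk : k < 2 * M + 1) :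
    bn M w i k = w i k := by unfold bn; rw [if_pos hi, if_pos hk]
theorem bn2 {M : ℕ} (w : ℕ → ℕ → ℝ) {i k : ℕ} (hi : i < 2 * M + 1) (hk : ¬ k < 2 * M + 1) :
    bn M w i k = 0 := by unfold bn; rw [if_pos hi, if_neg hk]
theorem bn3 {M : ℕ} (w : ℕ → ℕ → ℝ) {i k : ℕ} (hi : ¬ i < 2 * M + 1) (hk : k < 2 * M + 1) :
    bn M w i k = 0 := by unfold bn; rw [if_neg hi, if_pos hk]
theorem bn4 {M : ℕ} (w : ℕ → ℕ → ℝ) {i k : ℕ} (hi : ¬ i < 2 * M + 1) (hk : ¬ k < 2 * M + 1) :
    bn M w i k = 1 := by unfold bn; rw [if_neg hi, if_neg hk]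
theorem dn1 {M : ℕ} (w : ℕ → ℕ → ℝ) (c : ℕ → ℝ) {i k : ℕ} (hi : i < 2 * M + 1)
    (hk : k < 2 * M + 1) : dn M w c i k = w i k := by unfold dn; rw [if_pos hi, if_pos hk]
theorem dn2 {M : ℕ} (w : ℕ → ℕ → ℝ) (c : ℕ → ℝ) {i k : ℕ} (hi : i < 2 * M + 1)
    (hk : ¬ k < 2 * M + 1) : dn M w c i k = c i := by unfold dn; rw [if_pos hi, if_neg hk]
theorem dn3 {M : ℕ} (w : ℕ → ℕ → ℝ) (c : ℕ → ℝ) {i k : ℕ} (hi : ¬ i < 2 * M + 1)
    (hk : k < 2 * M + 1) : dn M w c i k = - c k := by unfold dn; rw [if_neg hi, if_pos hk]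
theorem dn4 {M : ℕ} (w : ℕ → ℕ → ℝ) (c : ℕ → ℝ) {i k : ℕ} (hi : ¬ i < 2 * M + 1)
    (hk : ¬ k < 2 * M + 1) : dn M w c i k = 0 := by unfold dn; rw [if_neg hi, if_neg hk]

theorem hin (M : ℕ) (w a : ℕ → ℕ → ℝ) (c : ℕ → ℝ) (i l : ℕ) :
    ∑ k ∈ range (2 * (M + 1)), bn M w i k * dn M a c k l =
      dn M (fun i l => ∑ k ∈ range (2 * M + 1), w i k * a k l)
        (fun i => ∑ k ∈ range (2 * M + 1), w i k * c k) i l +
      (if i < 2 * M + 1 then 0 else (if l < 2 * M + 1 then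
        ∑ k ∈ range (2 * M + 1), w l k * c k - c l else 0)) := by
  rw [show 2 * (M + 1) = (2 * M + 1) + 1 by ring, Finset.sum_range_succ]
  have hnn : ¬ (2 * M + 1 < 2 * M + 1) := lt_irrefl _
  by_cases hi : i < 2 * M + 1
  · rw [bn2 w hi hnn, zero_mul, add_zero, if_pos hi, add_zero]
    by_cases hl : l < 2 * M + 1
    · rw [dn1 _ _ hi hl]
      apply Finset.sum_congr rfl
      intro k hk
      rw [Finset.mem_range] at hk
      rw [bn1 w hi hk, dn1 _ _ hk hl]
    · rw [dn2 _ _ hi hl]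
      apply Finset.sum_congr rfl
      intro k hk
      rw [Finset.mem_range] at hk
      rw [bn1 w hi hk, dn2 _ _ hk hl]
  · rw [if_neg hi, bn4 w hi hnn, one_mul]
    have e : ∑ k ∈ range (2 * M + 1), bn M w i k * dn M a c k l = 0 := by
      apply Finset.sum_eq_zero
      intro k hk
      rw [Finset.mem_range] at hk
      rw [bn3 w hi hk, zero_mul]
    rw [e, zero_add]
    by_cases hl : l < 2 * M + 1
    · rw [dn3 _ _ hnn hl, dn3 _ _ hi hl, if_pos hl]; ring
    · rw [dn4 _ _ hnn hl, dn4 _ _ hi hl, if_neg hl]; ring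

theorem congr_bd (M : ℕ) (w a : ℕ → ℕ → ℝ) (c : ℕ → ℝ) :
    BB M w * bd M a c * (BB M w).transpose =
    bd M (fun i j => ∑ l ∈ range (2 * M + 1), (∑ k ∈ range (2 * M + 1), w i k * a k l) * w j l)
      (fun i => ∑ k ∈ range (2 * M + 1), w i k * c k) := by
  ext i j
  rw [Matrix.mul_apply]
  have h1 : ∀ l : Fin (2 * (M + 1)), (BB M w * bd M a c) i l * (BB M w).transpose l j =
      (fun l : ℕ => (∑ k ∈ range (2 * (M + 1)), bn M w i k * dn M a c k l) * bn M w j l) l := by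
    intro l
    rw [Matrix.mul_apply, Matrix.transpose_apply]
    have h2 : ∀ k : Fin (2 * (M + 1)), BB M w i k * bd M a c k l =
        (fun k : ℕ => bn M w i k * dn M a c k l) k := by
      intro k
      rfl
    rw [Finset.sum_congr rfl (fun k _ => h2 k),
      Fin.sum_univ_eq_sum_range (fun k : ℕ => bn M w i k * dn M a c k l)]
    rfl
  rw [Finset.sum_congr rfl (fun l _ => h1 l), Fin.sum_univ_eq_sum_range
    (fun l : ℕ => (∑ k ∈ range (2 * (M + 1)), bn M w i k * dn M a c k l) * bn M w j l)]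
  have hR : bd M (fun i j => ∑ l ∈ range (2 * M + 1),
      (∑ k ∈ range (2 * M + 1), w i k * a k l) * w j l)
      (fun i => ∑ k ∈ range (2 * M + 1), w i k * c k) i j =
      dn M (fun i j => ∑ l ∈ range (2 * M + 1),
      (∑ k ∈ range (2 * M + 1), w i k * a k l) * w j l)
      (fun i => ∑ k ∈ range (2 * M + 1), w i k * c k) i j := rfl
  rw [hR]
  generalize (i : ℕ) = i'
  generalize (j : ℕ) = j'
  have hsplit : ∑ l ∈ range (2 * (M + 1)),
      (∑ k ∈ range (2 * (M + 1)), bn M w i' k * dn M a c k l) * bn M w j' l =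
      ∑ l ∈ range (2 * M + 1),
      (∑ k ∈ range (2 * (M + 1)), bn M w i' k * dn M a c k l) * bn M w j' l +
      (∑ k ∈ range (2 * (M + 1)), bn M w i' k * dn M a c k (2 * M + 1)) * bn M w j' (2 * M + 1) :=
    Finset.sum_range_succ _ (2 * M + 1)
  rw [hsplit]
  have hnn : ¬ (2 * M + 1 < 2 * M + 1) := lt_irrefl _
  by_cases hi : i' < 2 * M + 1
  · by_cases hj : j' < 2 * M + 1
    · rw [bn2 w hj hnn, mul_zero, add_zero, dn1 _ _ hi hj]
      apply Finset.sum_congr rfl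
      intro l hl
      rw [Finset.mem_range] at hl
      rw [hin, if_pos hi, add_zero, dn1 _ _ hi hl, bn1 w hj hl]
    · rw [bn4 w hj hnn, mul_one, dn2 _ _ hi hj, hin, if_pos hi, add_zero, dn2 _ _ hi hnn,
        Finset.sum_eq_zero, zero_add]
      intro l hl
      rw [Finset.mem_range] at hl
      rw [bn3 w hj hl, mul_zero]
  · by_cases hj : j' < 2 * M + 1
    · rw [bn2 w hj hnn, mul_zero, add_zero, dn3 _ _ hi hj, ← Finset.sum_neg_distrib]
      apply Finset.sum_congr rfl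
      intro l hl
      rw [Finset.mem_range] at hl
      rw [hin, if_neg hi, if_pos hl, dn3 _ _ hi hl, bn1 w hj hl]
      ring
    · rw [bn4 w hj hnn, mul_one, dn4 _ _ hi hj, hin, if_neg hi, if_neg hnn, add_zero,
        dn4 _ _ hi hnn, add_zero]
      apply Finset.sum_eq_zero
      intro l hl
      rw [Finset.mem_range] at hl
      rw [bn3 w hj hl, mul_zero]

theorem det_BB (M : ℕ) (w : ℕ → ℕ → ℝ) (h1 : ∀ i k, i < k → w i k = 0) (h2 : ∀ k, w k k = 1) :
    (BB M w).det = 1 := by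
  rw [Matrix.det_of_lowerTriangular]
  · apply Finset.prod_eq_one
    intro i _
    simp only [BB, Matrix.of_apply]
    split_ifs
    · exact h2 _
    · rfl
  · intro i j hij
    have hij' : (i : ℕ) < j := by simpa using hij
    simp only [BB, Matrix.of_apply]
    have := j.2
    split_ifs
    · exact h1 _ _ hij'
    · rfl
    · rfl
    · omega

theorem ent_eq (κ : ℝ) (r : S1) (G : S2)
    (hG : (1 - vx - vy - vx * vy) * G = C (C κ) * (vy - vx) * (ix r * iy r))
    (N i j : ℕ) (hi : i < N) (hj : j < N) :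
    ent G i j = ∑ l ∈ range N, (∑ k ∈ range N, W r i k * tau κ k l) * W r j l := by
  rw [kern κ r G hG N i j hi]
  have hN : W r i N = 0 := W_lt r hi
  have hN' : W r j N = 0 := W_lt r hj
  -- upper part
  have hA : ∑ k ∈ range N, κ * 2 ^ k * (W r i k * W r j (k + 1)) =
      ∑ l ∈ range N, (∑ k ∈ range N, W r i k * (if l = k + 1 then κ * 2 ^ k else 0)) * W r j l := by
    have s1 : ∀ l, (∑ k ∈ range N, W r i k * (if l = k + 1 then κ * 2 ^ k else 0)) * W r j l =
      ∑ k ∈ range N, (if l = k + 1 then κ * 2 ^ k * (W r i k * W r j l) else 0) := by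
      intro l
      rw [Finset.sum_mul]
      apply Finset.sum_congr rfl
      intro k _
      split_ifs <;> ring
    simp only [s1]
    rw [Finset.sum_comm]
    apply Finset.sum_congr rfl
    intro k hk
    rw [Finset.mem_range] at hk
    rw [Finset.sum_ite_eq' (range N) (k + 1) (fun l => κ * 2 ^ k * (W r i k * W r j l))]
    split_ifs with h
    · rfl
    · rw [Finset.mem_range] at h
      have : k + 1 = N := by omega
      rw [this, hN']; ring
  have hB : ∑ k ∈ range N, κ * 2 ^ k * (W r i (k + 1) * W r j k) =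
      ∑ l ∈ range N, (∑ k ∈ range N, W r i k * (if k = l + 1 then κ * 2 ^ l else 0)) * W r j l := by
    apply Finset.sum_congr rfl
    intro l hl
    rw [Finset.mem_range] at hl
    have : ∑ k ∈ range N, W r i k * (if k = l + 1 then κ * 2 ^ l else 0) =
      W r i (l + 1) * (κ * 2 ^ l) := by
      have e : ∀ k ∈ range N, W r i k * (if k = l + 1 then κ * 2 ^ l else 0) =
        if k = l + 1 then W r i k * (κ * 2 ^ l) else 0 := by
        intro k _
        split_ifs <;> ring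
      rw [Finset.sum_congr rfl e,
        Finset.sum_ite_eq' (range N) (l + 1) (fun k => W r i k * (κ * 2 ^ l))]
      split_ifs with h
      · rfl
      · rw [Finset.mem_range] at h
        have : l + 1 = N := by omega
        rw [this, hN]; ring
    rw [this]; ring
  have hL : ∑ k ∈ range N, κ * 2 ^ k * (W r i k * W r j (k + 1) - W r i (k + 1) * W r j k) =
      ∑ k ∈ range N, κ * 2 ^ k * (W r i k * W r j (k + 1)) -
      ∑ k ∈ range N, κ * 2 ^ k * (W r i (k + 1) * W r j k) := by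
    rw [← Finset.sum_sub_distrib]
    apply Finset.sum_congr rfl
    intro k _
    ring
  rw [hL, hA, hB, ← Finset.sum_sub_distrib]
  apply Finset.sum_congr rfl
  intro l _
  rw [← sub_mul, ← Finset.sum_sub_distrib]
  congr 1
  apply Finset.sum_congr rfl
  intro k _
  unfold tau
  by_cases h1 : l = k + 1
  · have h2 : ¬ k = l + 1 := by omega
    rw [if_pos h1, if_pos h1, if_neg h2]; ring
  · rw [if_neg h1, if_neg h1]
    split_ifs <;> ring

theorem bd_eq (κ q β : ℝ) (r : S1) (hr : r * (1 - C q * X) = 1) (G : S2)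
    (hG : (1 - vx - vy - vx * vy) * G = C (C κ) * (vy - vx) * (ix r * iy r)) (g : S1)
    (hg : g * (1 - C (1 + √2) * X) = C β) (M : ℕ) :
    bd M (ent G) (cf g) = BB M (W r) * bd M (tau κ) (cc q β) * (BB M (W r)).transpose := by
  rw [congr_bd]
  ext i j
  simp only [bd, Matrix.of_apply]
  by_cases hi : (i : ℕ) < 2 * M + 1
  · by_cases hj : (j : ℕ) < 2 * M + 1
    · simp only [if_pos hi, if_pos hj]
      exact ent_eq κ r G hG (2 * M + 1) i j hi hj
    · simp only [if_pos hi, if_neg hj]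
      rw [bord q β r hr g hg (2 * M + 1) i hi]
      apply Finset.sum_congr rfl
      intro k _; ring
  · by_cases hj : (j : ℕ) < 2 * M + 1
    · simp only [if_neg hi, if_pos hj]
      rw [bord q β r hr g hg (2 * M + 1) j hj]
      congr 1
      apply Finset.sum_congr rfl
      intro k _; ring
    · simp only [if_neg hi, if_neg hj]

theorem const_r (q : ℝ) (r : S1) (hr : r * (1 - C q * X) = 1) : constantCoeff (R := ℝ) r = 1 := by
  have h := congrArg (constantCoeff (R := ℝ)) hr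
  simpa using h

theorem pf_eq (κ q β : ℝ) (r : S1) (hr : r * (1 - C q * X) = 1) (G : S2)
    (hG : (1 - vx - vy - vx * vy) * G = C (C κ) * (vy - vx) * (ix r * iy r)) (g : S1)
    (hg : g * (1 - C (1 + √2) * X) = C β) (M : ℕ) :
    pf (bd M (ent G) (cf g)) = pf (bd M (tau κ) (cc q β)) := by
  rw [bd_eq κ q β r hr G hG g hg M, pf_congr, det_BB, one_mul]
  · intro i k h; exact W_lt r h
  · intro k; exact W_diag r (const_r q r hr) k

theorem bound (κ q β : ℝ) : ∃ C0 : ℝ, 1 ≤ C0 ∧ ∀ M : ℕ,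
    |pf (bd M (tau κ) (cc q β))| ≤ C0 ^ (M + 1) * ((2 * (M + 1)).factorial : ℝ) * 2 ^ (M ^ 2) := by
  set c : ℝ := |κ| + |β| * (1 + |1 - q|) + 1 with hc
  have hκ : 0 ≤ |κ| := abs_nonneg κ
  have hβ : 0 ≤ |β| := abs_nonneg β
  have hq : 0 ≤ |1 - q| := abs_nonneg (1 - q)
  have hβq : 0 ≤ |β| * (1 + |1 - q|) := mul_nonneg hβ (by linarith)
  have hc1 : 1 ≤ c := by rw [hc]; linarith
  have hc0 : 0 ≤ c := by linarith
  have hs2 : (1 : ℝ) ≤ √2 := by
    rw [show (1 : ℝ) = √1 by simp]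
    exact Real.sqrt_le_sqrt (by norm_num)
  have hs2' : √2 ≤ 2 := by
    rw [Real.sqrt_le_left (by norm_num)]; norm_num
  have hsq : √2 * √2 = 2 := Real.mul_self_sqrt (by norm_num)
  have hsp : ∀ n : ℕ, (1 : ℝ) ≤ √2 ^ n := fun n => one_le_pow₀ hs2
  have hcc : ∀ k, |cc q β k| ≤ c * √2 ^ k := by
    intro k
    have hk := hsp k
    have e1 : |β * √2 ^ k| = |β| * √2 ^ k := by
      rw [abs_mul, abs_of_nonneg (by positivity : (0 : ℝ) ≤ √2 ^ k)]
    have e2 : |(if k = 0 then 0 else β * (1 - q) * √2 ^ (k - 1))| ≤ |β| * |1 - q| * √2 ^ k := by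
      split_ifs with h
      · rw [abs_zero]; positivity
      · rw [abs_mul, abs_mul, abs_of_nonneg (by positivity : (0 : ℝ) ≤ √2 ^ (k - 1))]
        apply mul_le_mul_of_nonneg_left _ (by positivity)
        exact pow_le_pow_right₀ hs2 (by omega)
    have e3 : |cc q β k| ≤ |β * √2 ^ k| + |(if k = 0 then 0 else β * (1 - q) * √2 ^ (k - 1))| := by
      unfold cc; exact abs_add_le _ _
    rw [e1] at e3
    have e4 : |β| * √2 ^ k + |β| * |1 - q| * √2 ^ k = (|β| * (1 + |1 - q|)) * √2 ^ k := by ring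
    have e5 : (|β| * (1 + |1 - q|)) * √2 ^ k ≤ c * √2 ^ k := by
      apply mul_le_mul_of_nonneg_right _ (by positivity)
      rw [hc]; linarith
    linarith
  have htau : ∀ k l, |tau κ k l| ≤ c * (√2 ^ k * √2 ^ l) := by
    have key : ∀ k : ℕ, |κ * 2 ^ k| ≤ c * (√2 ^ k * √2 ^ (k + 1)) := by
      intro k
      rw [abs_mul, abs_of_nonneg (by positivity : (0 : ℝ) ≤ 2 ^ k)]
      have : √2 ^ k * √2 ^ (k + 1) = 2 ^ k * √2 := by
        rw [pow_succ, ← mul_assoc, ← mul_pow, hsq]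
      rw [this]
      have h2k : (0 : ℝ) ≤ 2 ^ k := by positivity
      have a1 : |κ| ≤ c := by rw [hc]; linarith
      have a2 : (2 : ℝ) ^ k ≤ 2 ^ k * √2 := by nlinarith
      exact mul_le_mul a1 a2 h2k hc0
    intro k l
    unfold tau
    split_ifs with h1 h2
    · rw [h1]; exact key k
    · rw [h2, abs_neg, mul_comm (√2 ^ (l + 1))]; exact key l
    · rw [abs_zero]; positivity
  refine ⟨2 * c, by linarith, fun M => ?_⟩
  set s : Fin (2 * (M + 1)) → ℝ := fun i => if (i : ℕ) < 2 * M + 1 then √2 ^ (i : ℕ) else 1 with hs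
  have hs0 : ∀ i, 0 ≤ s i := by
    intro i; simp only [hs]; split_ifs <;> positivity
  have hA : ∀ i j, |bd M (tau κ) (cc q β) i j| ≤ c * (s i * s j) := by
    intro i j
    simp only [bd, Matrix.of_apply, hs]
    split_ifs
    · exact htau i j
    · rw [mul_one]; exact hcc i
    · rw [one_mul, abs_neg]; exact hcc j
    · rw [abs_zero]; positivity
  have h := Pool.Agent.X287.BP.AbsLe.pf_abs_le (bd M (tau κ) (cc q β)) c s hc0 hs0 hA
  have hprod : ∏ i, s i = √2 ^ (M * (2 * M + 1)) := by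
    have e1 : ∏ i, s i = ∏ i ∈ range (2 * (M + 1)), (if i < 2 * M + 1 then √2 ^ i else (1 : ℝ)) :=
      Fin.prod_univ_eq_prod_range (fun i : ℕ => if i < 2 * M + 1 then √2 ^ i else (1 : ℝ)) _
    rw [e1, show 2 * (M + 1) = (2 * M + 1) + 1 by ring, Finset.prod_range_succ,
      if_neg (lt_irrefl _), mul_one]
    have e2 : ∏ i ∈ range (2 * M + 1), (if i < 2 * M + 1 then √2 ^ i else (1 : ℝ)) =
        ∏ i ∈ range (2 * M + 1), √2 ^ i := by
      apply Finset.prod_congr rfl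
      intro i hi
      rw [Finset.mem_range] at hi
      rw [if_pos hi]
    rw [e2, Finset.prod_pow_eq_pow_sum]
    congr 1
    have := Finset.sum_range_id_mul_two (2 * M + 1)
    rw [Nat.add_sub_cancel] at this
    nlinarith
  have hp2 : √2 ^ (M * (2 * M + 1)) ≤ 2 ^ (M ^ 2) * 2 ^ (M + 1) := by
    have e : √2 ^ (M * (2 * M + 1)) = 2 ^ (M ^ 2) * √2 ^ M := by
      rw [show M * (2 * M + 1) = 2 * M ^ 2 + M by ring, pow_add, pow_mul,
        Real.sq_sqrt (by norm_num : (0 : ℝ) ≤ 2)]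
    rw [e]
    apply mul_le_mul_of_nonneg_left _ (by positivity)
    calc √2 ^ M ≤ 2 ^ M := pow_le_pow_left₀ (by positivity) hs2' M
      _ ≤ 2 ^ (M + 1) := pow_le_pow_right₀ (by norm_num) (by omega)
  have hden : (1 : ℝ) ≤ 2 ^ (M + 1) * ((M + 1).factorial : ℝ) := by
    have a1 : (1 : ℝ) ≤ 2 ^ (M + 1) := one_le_pow₀ (by norm_num)
    have a2 : (1 : ℝ) ≤ ((M + 1).factorial : ℝ) := by
      exact_mod_cast Nat.succ_le_of_lt (Nat.factorial_pos _)
    nlinarith
  have hfac : ((2 * (M + 1)).factorial : ℝ) / (2 ^ (M + 1) * ((M + 1).factorial : ℝ)) ≤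
      ((2 * (M + 1)).factorial : ℝ) := div_le_self (by positivity) hden
  calc |pf (bd M (tau κ) (cc q β))| ≤ _ := h
    _ ≤ ((2 * (M + 1)).factorial : ℝ) * c ^ (M + 1) * (2 ^ (M ^ 2) * 2 ^ (M + 1)) := by
        rw [hprod]
        apply mul_le_mul _ hp2 (by positivity) (by positivity)
        exact mul_le_mul_of_nonneg_right hfac (by positivity)
    _ = (2 * c) ^ (M + 1) * ((2 * (M + 1)).factorial : ℝ) * 2 ^ (M ^ 2) := by
        rw [mul_pow]; ring

/-- Part Y4. -/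
theorem Y4 (κ q β : ℝ) (r : S1) (hr : r * (1 - C q * X) = 1) (G : S2)
    (hG : (1 - vx - vy - vx * vy) * G = C (C κ) * (vy - vx) * (ix r * iy r)) (g : S1)
    (hg : g * (1 - C (1 + √2) * X) = C β) : ∃ C0 : ℝ, 1 ≤ C0 ∧ ∀ M : ℕ,
    |pf (bd M (ent G) (cf g))| ≤ C0 ^ (M + 1) * ((2 * (M + 1)).factorial : ℝ) * 2 ^ (M ^ 2) := by
  obtain ⟨C0, h1, h2⟩ := bound κ q β
  refine ⟨C0, h1, fun M => ?_⟩
  rw [pf_eq κ q β r hr G hG g hg M]
  exact h2 M

/-- Part Y4, with the hypothesis on `g` in the other form. -/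
theorem Y4' (κ q β : ℝ) (r : S1) (hr : r * (1 - C q * X) = 1) (G : S2)
    (hG : (1 - vx - vy - vx * vy) * G = C (C κ) * (vy - vx) * (ix r * iy r)) (g : S1)
    (hg : g * (1 - C (1 + √2) * X) = C β * r * (1 - C q * X)) : ∃ C0 : ℝ, 1 ≤ C0 ∧ ∀ M : ℕ,
    |pf (bd M (ent G) (cf g))| ≤ C0 ^ (M + 1) * ((2 * (M + 1)).factorial : ℝ) * 2 ^ (M ^ 2) :=
  Y4 κ q β r hr G hG g (by rw [hg, mul_assoc, hr, mul_one])

end Pool.Agent.X177.GR
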