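import Pool.Agent.X294.GR.Bd

/-!
# The bordered growth bound (part Y4), kernel identities
-/

namespace Pool.Agent.X177.GR

open Finset PowerSeries Pool.Agent.X294.GR

/-- `1/(1-x)` -/
noncomputable def ss : S1 := (1 - X)⁻¹

theorem ss_mul : ss * (1 - X) = 1 := by
  unfold ss; rw [PowerSeries.inv_mul_cancel]; simp

/-- `x/(1-x)` -/
noncomputable def pp : S1 := X * ss

theorem pp_mul : pp * (1 - X) = X := by unfold pp; rw [mul_assoc, ss_mul, mul_one]

theorem ss_0 : constantCoeff (R := ℝ) ss = 1 := by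
  have h := congrArg (constantCoeff (R := ℝ)) ss_mul
  simpa using h

/-- the triangular matrix -/
noncomputable def W (r : S1) (i k : ℕ) : ℝ := coeff i (pp ^ k * r)

theorem W_lt (r : S1) {i k : ℕ} (h : i < k) : W r i k = 0 := by
  unfold W pp
  rw [mul_pow, mul_assoc, coeff_X_pow_mul', if_neg (by omega)]

theorem W_diag (r : S1) (hr : constantCoeff (R := ℝ) r = 1) (k : ℕ) : W r k k = 1 := by
  unfold W pp
  rw [mul_pow, mul_assoc, coeff_X_pow_mul', if_pos le_rfl, Nat.sub_self,
    coeff_zero_eq_constantCoeff, map_mul, map_pow, ss_0, hr]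
  norm_num

theorem unit2 : IsUnit (1 - vx - vy - vx * vy) := by
  rw [PowerSeries.isUnit_iff_constantCoeff]
  have : constantCoeff (1 - vx - vy - vx * vy) = (1 - X : S1) := by
    simp
  rw [this]
  exact IsUnit.of_mul_eq_one ss (by rw [mul_comm]; exact ss_mul)

theorem kern (κ : ℝ) (r : S1) (G : S2)
    (hG : (1 - vx - vy - vx * vy) * G = C (C κ) * (vy - vx) * (ix r * iy r))
    (N i j : ℕ) (hi : i < N) :
    ent G i j = ∑ k ∈ range N, κ * 2 ^ k * (W r i k * W r j (k + 1) - W r i (k + 1) * W r j k) := by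
  set F : S2 := ∑ k ∈ range N, iy (C (κ * 2 ^ k)) *
    (ix (pp ^ k * r) * iy (pp ^ (k + 1) * r) - ix (pp ^ (k + 1) * r) * iy (pp ^ k * r)) with hF
  have hent : ent F i j =
      ∑ k ∈ range N, κ * 2 ^ k * (W r i k * W r j (k + 1) - W r i (k + 1) * W r j k) := by
    rw [hF, ent_sum]
    apply Finset.sum_congr rfl
    intro k _
    rw [ent_smul, ent_sub, ent_prod, ent_prod]
    rfl
  have hx : ix pp * (1 - vx) = vx := by
    have := congrArg ix pp_mul
    rwa [map_mul, map_sub, map_one, ix_X] at this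
  have hy : iy pp * (1 - vy) = vy := by
    have := congrArg iy pp_mul
    rwa [map_mul, map_sub, map_one, iy_X] at this
  have hF' : F = iy (C κ) * (ix r * iy r) * (iy pp - ix pp) *
      ∑ k ∈ range N, (iy (C 2) * ix pp * iy pp) ^ k := by
    rw [hF, Finset.mul_sum]
    apply Finset.sum_congr rfl
    intro k _
    simp only [map_mul, map_pow]
    ring
  have h2 : iy (C (2 : ℝ)) = 2 := by
    rw [show (2 : ℝ) = 1 + 1 by norm_num, map_add, map_add, map_one, map_one]; norm_num
  have hgeo := geom_sum_mul_neg (iy (C 2) * ix pp * iy pp) N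
  have hK : (1 - vx - vy - vx * vy) =
      (1 - vx) * (1 - vy) * (1 - iy (C 2) * ix pp * iy pp) := by
    rw [h2]
    have : (1 - vx) * (1 - vy) * (1 - 2 * ix pp * iy pp) =
      (1 - vx) * (1 - vy) - 2 * (ix pp * (1 - vx)) * (iy pp * (1 - vy)) := by ring
    rw [this, hx, hy]
    ring
  have hKF : (1 - vx - vy - vx * vy) * F = iy (C κ) * (ix r * iy r) * (vy - vx) *
      (1 - (iy (C 2) * ix pp * iy pp) ^ N) := by
    rw [hK, hF', ← hgeo]
    have : vy - vx = (1 - vx) * (1 - vy) * (iy pp - ix pp) := by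
      have e : (1 - vx) * (1 - vy) * (iy pp - ix pp) =
        (1 - vx) * (iy pp * (1 - vy)) - (1 - vy) * (ix pp * (1 - vx)) := by ring
      rw [e, hx, hy]; ring
    rw [this]
    ring
  have hpx : ix pp = vx * ix ss := by
    unfold pp; rw [map_mul, ix_X]
  have hdiff : (1 - vx - vy - vx * vy) * (G - F) = vx ^ N *
      (iy (C κ) * (ix r * iy r) * (vy - vx) * (iy (C 2) * ix ss * iy pp) ^ N) := by
    rw [mul_sub, hG, hKF, hpx]
    have : C (C κ) = iy (C κ) := rfl
    rw [this]
    ring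
  obtain ⟨u, hu⟩ := unit2
  have hGF : G - F = vx ^ N * ((↑u⁻¹ : S2) *
      (iy (C κ) * (ix r * iy r) * (vy - vx) * (iy (C 2) * ix ss * iy pp) ^ N)) := by
    have : G - F = (↑u⁻¹ : S2) * ((1 - vx - vy - vx * vy) * (G - F)) := by
      rw [← hu, ← mul_assoc, Units.inv_mul, one_mul]
    rw [this, hdiff]
    ring
  have h0 : ent (G - F) i j = 0 := by
    rw [hGF]
    unfold ent
    rw [coeff_X_pow_mul', if_neg (by omega)]
    simp
  rw [ent_sub] at h0
  rw [← hent]
  linarith

/-- coefficients of the border -/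
noncomputable def cc (q β : ℝ) (k : ℕ) : ℝ :=
  β * √2 ^ k + (if k = 0 then 0 else β * (1 - q) * √2 ^ (k - 1))

theorem bord (q β : ℝ) (r : S1) (hr : r * (1 - C q * X) = 1) (g : S1)
    (hg : g * (1 - C (1 + √2) * X) = C β) (N i : ℕ) (hi : i < N) :
    cf g i = ∑ k ∈ range N, cc q β k * W r i k := by
  set t : S1 := C (√2 : ℝ) * pp with ht
  set F : S1 := C β * (1 + C (1 - q) * pp) * (∑ k ∈ range N, t ^ k) * r with hF
  have hF1 : F = ∑ k ∈ range N, (C (β * √2 ^ k) * (pp ^ k * r) +
      C (β * (1 - q) * √2 ^ k) * (pp ^ (k + 1) * r)) := by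
    rw [hF, Finset.mul_sum, Finset.sum_mul]
    apply Finset.sum_congr rfl
    intro k _
    rw [ht]
    simp only [map_mul, map_pow, mul_pow]
    ring
  have hc : cf F i = ∑ k ∈ range N, cc q β k * W r i k := by
    unfold cf
    rw [hF1, map_sum]
    have e1 : ∀ k ∈ range N, coeff i (C (β * √2 ^ k) * (pp ^ k * r) +
      C (β * (1 - q) * √2 ^ k) * (pp ^ (k + 1) * r)) =
        β * √2 ^ k * W r i k + β * (1 - q) * √2 ^ k * W r i (k + 1) := by
      intro k _
      rw [map_add, coeff_C_mul, coeff_C_mul]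
      rfl
    rw [Finset.sum_congr rfl e1, Finset.sum_add_distrib]
    have e2 : ∑ k ∈ range N, β * (1 - q) * √2 ^ k * W r i (k + 1) =
        ∑ k ∈ range N, (if k = 0 then 0 else β * (1 - q) * √2 ^ (k - 1)) * W r i k := by
      have s1 := Finset.sum_range_succ
        (fun k => (if k = 0 then 0 else β * (1 - q) * √2 ^ (k - 1)) * W r i k) N
      have s2 := Finset.sum_range_succ'
        (fun k => (if k = 0 then 0 else β * (1 - q) * √2 ^ (k - 1)) * W r i k) N
      rw [s1, W_lt r hi] at s2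
      simp only [mul_zero, add_zero, if_true, zero_mul] at s2
      rw [s2]
      apply Finset.sum_congr rfl
      intro k _
      rw [if_neg (by omega), Nat.add_sub_cancel]
    rw [e2, ← Finset.sum_add_distrib]
    apply Finset.sum_congr rfl
    intro k _
    unfold cc
    ring
  have hgeo := geom_sum_mul_neg t N
  have e1 : (1 - C (1 + √2) * X : S1) = (1 - X) * (1 - t) := by
    rw [ht, map_add, map_one]
    have : (1 - X : S1) * (1 - C √2 * pp) = 1 - X - C √2 * (pp * (1 - X)) := by ring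
    rw [this, pp_mul]; ring
  have e2 : (1 - X : S1) * (1 + C (1 - q) * pp) = 1 - C q * X := by
    have : (1 - X : S1) * (1 + C (1 - q) * pp) = 1 - X + C (1 - q) * (pp * (1 - X)) := by ring
    rw [this, pp_mul, map_sub, map_one]; ring
  have hFm : F * (1 - C (1 + √2) * X) = C β * (1 - t ^ N) := by
    rw [e1, hF]
    have : C β * (1 + C (1 - q) * pp) * (∑ k ∈ range N, t ^ k) * r * ((1 - X) * (1 - t)) =
      C β * ((1 - X) * (1 + C (1 - q) * pp)) * r * ((∑ k ∈ range N, t ^ k) * (1 - t)) := by ring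
    rw [this, hgeo, e2]
    have : C β * (1 - C q * X) * r * (1 - t ^ N) = C β * (r * (1 - C q * X)) * (1 - t ^ N) := by
      ring
    rw [this, hr]
    ring
  have hd : (g - F) * (1 - C (1 + √2) * X) = C β * t ^ N := by
    rw [sub_mul, hg, hFm]; ring
  have hinv : ((1 - C (1 + √2) * X : S1))⁻¹ * (1 - C (1 + √2) * X) = 1 := by
    rw [PowerSeries.inv_mul_cancel]; simp
  have hgF : g - F = X ^ N * (C β * (C (√2 : ℝ) * ss) ^ N * (1 - C (1 + √2) * X : S1)⁻¹) := by
    have : g - F = (g - F) * (1 - C (1 + √2) * X) * (1 - C (1 + √2) * X : S1)⁻¹ := by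
      rw [mul_assoc, mul_comm (1 - C (1 + √2) * X : S1), hinv, mul_one]
    rw [this, hd, ht]
    unfold pp
    ring
  have h0 : cf (g - F) i = 0 := by
    unfold cf
    rw [hgF, coeff_X_pow_mul', if_neg (by omega)]
  rw [← hc]
  unfold cf at h0 ⊢
  rw [map_sub] at h0
  linarith

end Pool.Agent.X177.GR
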