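import Pool.Agent.X294.GR.Ker

/-!
# Border array of the second limit (part Y5)
-/

namespace Pool.Agent.X177.GR

open Finset PowerSeries Pool.Agent.X294.GR

theorem coeff_rec (φ : S1) (h : φ * (1 - 2 * X - X ^ 2) = 1) :
    coeff 0 φ = 1 ∧ coeff 1 φ = 2 ∧ ∀ k, coeff (k + 2) φ = 2 * coeff (k + 1) φ + coeff k φ := by
  have h' : φ - 2 * (φ * X) - φ * X ^ 2 = 1 := by rw [← h]; ring
  have h2 : ∀ (F : S1) n, coeff n (2 * F) = 2 * coeff n F := by
    intro F n
    rw [two_mul, two_mul, map_add]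
  have h0 : coeff 0 φ = 1 := by
    have := congrArg (coeff 0) h'
    rw [map_sub, map_sub, h2, coeff_zero_mul_X, coeff_mul_X_pow'] at this
    simpa using this
  have h1 : coeff 1 φ = 2 := by
    have e1 : coeff 1 (φ * X) = coeff 0 φ := coeff_succ_mul_X 0 φ
    have := congrArg (coeff 1) h'
    rw [map_sub, map_sub, h2, e1, coeff_mul_X_pow', h0] at this
    simp [coeff_one] at this
    linarith
  refine ⟨h0, h1, fun k => ?_⟩
  have := congrArg (coeff (k + 2)) h'
  rw [map_sub, map_sub, h2, coeff_mul_X_pow, show k + 2 = (k + 1) + 1 from rfl, coeff_succ_mul_X,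
    coeff_one, if_neg (by omega)] at this
  linarith

theorem fib (f : ℕ → ℝ) (h1 : f 1 = 2) (h2 : f 2 = 4)
    (h3 : ∀ k, 3 ≤ k → f k = 2 * f (k - 1) + f (k - 2)) (φ : S1)
    (h : φ * (1 - 2 * X - X ^ 2) = 1) : ∀ k, f (k + 1) = 2 * coeff k φ := by
  obtain ⟨c0, c1, c2⟩ := coeff_rec φ h
  have key : ∀ k, f (k + 1) = 2 * coeff k φ ∧ f (k + 2) = 2 * coeff (k + 1) φ := by
    intro k
    induction k with
    | zero => simp only [zero_add]; rw [h1, h2, c0, c1]; norm_num
    | succ k ih =>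
      refine ⟨ih.2, ?_⟩
      rw [h3 (k + 1 + 2) (by omega), show k + 1 + 2 - 1 = k + 2 by omega,
        show k + 1 + 2 - 2 = k + 1 by omega, ih.1, ih.2, show k + 1 + 1 = k + 2 from rfl, c2 k]
      ring
  exact fun k => (key k).1

end Pool.Agent.X177.GR
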